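import Pool.Agent.Y630.TG.RcFault
import Pool.Agent.W906.MU.Final

/-! Unique games whose constraints are hidden in random faults. -/

set_option autoImplicit false
set_option linter.unusedSectionVars false
set_option linter.unusedVariables false

namespace Pool.Agent.N625.UF

open Finset Pool.Agent.Y630.NW Pool.Agent.Y630.TF Pool.Agent.Y630.TR Pool.Agent.W969.MC
  Pool.Agent.W906.MU Pool.Agent.Y630.TG

/-- the positions of tagged constraints -/
abbrev UPos (N q K : ℕ) : Type := Con N q × Fin K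

lemma prog_conv {I : Type} {inp : Set (I → ℝ)} {l : List (I → ℝ)} (h : H630VC.Prog inp l) :
    Pool.Agent.W906.MU.Prog inp l := by
  induction h with
  | nil => exact Prog.nil
  | input _ hf ih => exact Prog.input ih hf
  | gate _ hφ hf hg ih => exact Prog.gate ih hφ hf hg

open Classical in
/-- the bits of a game -/
noncomputable def encU {N q : ℕ} (I : Game N q) : Con N q → Bool := fun e => decide (e ∈ I)

lemma encU_true {N q : ℕ} {I : Game N q} {e : Con N q} : encU I e = true ↔ e ∈ I := by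
  classical
  unfold encU
  rw [decide_eq_true_iff]

lemma hostU_true {N q K : ℕ} [NeZero K] {I : Game N q} {τ : Con N q → Fin K} {e : UPos N q K} :
    host (Function.Embedding.refl _) (fun _ => false) τ (encU I) e = true ↔
      τ e.1 = e.2 ∧ e.1 ∈ I := by
  rw [host_true]
  constructor
  · rintro (h | ⟨x, h1, h2⟩)
    · exact absurd h (by simp)
    · have h3 : (x, τ x) = e := h2
      rw [← h3]
      exact ⟨rfl, encU_true.mp h1⟩
  · rintro ⟨h1, h2⟩
    exact Or.inr ⟨e.1, encU_true.mpr h2, Prod.ext rfl h1⟩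

open Classical in
lemma hostU_count {N q K : ℕ} [NeZero K] (I : Game N q) (τ : Con N q → Fin K)
    (P : Con N q → Prop) :
    (univ.filter fun e : UPos N q K =>
      host (Function.Embedding.refl _) (fun _ => false) τ (encU I) e = true ∧ P e.1).card =
    (I.filter fun e => P e).card := by
  symm
  refine Finset.card_bij (fun e _ => (e, τ e)) ?_ ?_ ?_
  · intro e he
    have he' := Finset.mem_filter.mp he
    rw [Finset.mem_filter]
    exact ⟨Finset.mem_univ _, hostU_true.mpr ⟨rfl, he'.1⟩, he'.2⟩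
  · intro e _ e' _ h
    exact (Prod.mk.inj h).1
  · intro e he
    have he' := (Finset.mem_filter.mp he).2
    obtain ⟨h1, h2⟩ := hostU_true.mp he'.1
    exact ⟨e.1, Finset.mem_filter.mpr ⟨h2, he'.2⟩, Prod.ext rfl h1⟩

open Classical in
lemma hostU_count' {N q K : ℕ} [NeZero K] (I : Game N q) (τ : Con N q → Fin K) :
    (univ.filter fun e : UPos N q K =>
      host (Function.Embedding.refl _) (fun _ => false) τ (encU I) e = true).card = I.card := by
  have h := hostU_count I τ (fun _ => True)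
  simpa using h

/-- every constraint has at most one tag -/
def USmp {N q K : ℕ} (x : UPos N q K → Bool) : Prop :=
  ∀ e e', x e = true → x e' = true → e.1 = e'.1 → e = e'

lemma usmp_host {N q K : ℕ} [NeZero K] (I : Game N q) (τ : Con N q → Fin K) :
    USmp (host (Function.Embedding.refl _) (fun _ => false) τ (encU I)) := by
  intro e e' he he' h1
  obtain ⟨h3, -⟩ := hostU_true.mp he
  obtain ⟨h3', -⟩ := hostU_true.mp he'
  refine Prod.ext h1 ?_
  rw [← h3, ← h3', h1]

open Classical in
/-- tagged games with `m` constraints and value at most `δ` -/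
def UNo {N q K : ℕ} (m : ℕ) (δ : ℝ) (x : UPos N q K → Bool) : Prop :=
  USmp x ∧ (univ.filter fun e => x e = true).card = m ∧ ∀ f g : Fin N → Fin q,
    ((univ.filter fun e => x e = true ∧ Sat f g e.1).card : ℝ) ≤ δ * m

open Classical in
/-- tagged games with at least `m` constraints, some labelling violates at most `ε m` -/
def UYes {N q K : ℕ} (m : ℕ) (ε : ℝ) (x : UPos N q K → Bool) : Prop :=
  USmp x ∧ m ≤ (univ.filter fun e => x e = true).card ∧ ∃ f g : Fin N → Fin q,
    ((univ.filter fun e => x e = true ∧ ¬ Sat f g e.1).card : ℝ) ≤ ε * m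

open Classical in
theorem ug_fault (q : ℕ) (hq : 1 ≤ q) (δ : ℝ) (hδ : 1 / (q : ℝ) < δ) :
    ∃ N0 : ℕ, ∀ N : ℕ, N0 ≤ N → ∃ m : ℕ, 0 < m ∧
    ∀ ε : ℝ, (N : ℝ) ^ (-(1 / 139) : ℝ) ≤ ε → ∀ D K : ℕ, 1 ≤ D →
    D * (2 * Real.log N + Real.log (q.factorial) + 4) ≤ K →
    ∀ (R : Type) [Fintype R] [Nonempty R] (C : R → RC (UPos N q K × Bool)) (s : ℕ)
      (hT : ∀ ρ, (C ρ).T = ∅) (hs : ∀ ρ, (C ρ).S ≤ s)
      (h1 : ∀ x : UPos N q K → Bool, UNo m δ x →
        (4 / 5 : ℝ) * (Fintype.card R * (D : ℝ) ^ Fintype.card (UPos N q K)) ≤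
        ({s : R × (UPos N q K → Fin D) | (C s.1).acc (lit x (Flt s.2))}.ncard : ℝ))
      (h2 : ∀ x : UPos N q K → Bool, UYes m ε x →
        ({ρ : R | (C ρ).acc (lit x ∅)}.ncard : ℝ) ≤ 1 / 4 * Fintype.card R),
      (2 : ℝ) ^ ((N : ℝ) ^ (1 / 139 : ℝ)) ≤ 3 * s + 2 := by
  obtain ⟨N0, H⟩ := lower q hq δ hδ
  refine ⟨max N0 1, fun N hN => ?_⟩
  have hN0 : N0 ≤ N := (le_max_left _ _).trans hN
  have hN1 : 1 ≤ N := (le_max_right _ _).trans hN
  obtain ⟨m, hm, H⟩ := H N hN0
  refine ⟨m, hm, fun ε hε D K hD hK R _ _ C s hT hs h1 h2 => ?_⟩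
  have hNR : (1 : ℝ) ≤ N := by exact_mod_cast hN1
  have hDR : (1 : ℝ) ≤ D := by exact_mod_cast hD
  have hfac : (1 : ℝ) ≤ q.factorial := by exact_mod_cast Nat.factorial_pos q
  have hlogN : 0 ≤ Real.log N := Real.log_nonneg hNR
  have hlogq : 0 ≤ Real.log (q.factorial) := Real.log_nonneg hfac
  have hK0 : 0 < K := by
    have h3 : (0 : ℝ) < K := by
      refine lt_of_lt_of_le ?_ hK
      have : (0 : ℝ) < 2 * Real.log N + Real.log (q.factorial) + 4 := by positivity
      positivity
    exact_mod_cast h3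
  have _ : NeZero K := ⟨hK0.ne'⟩
  have hne : Nonempty (Con N q) := ⟨⟨⟨0, by omega⟩, ⟨0, by omega⟩, 1⟩⟩
  have hcard : (Fintype.card (Con N q) : ℝ) = (N : ℝ) ^ 2 * q.factorial := by
    rw [Fintype.card_prod, Fintype.card_prod, Fintype.card_perm, Fintype.card_fin,
      Fintype.card_fin]
    push_cast
    ring
  have hbad : (Fintype.card (Con N q) : ℝ) * (1 - 1 / (D : ℝ)) ^ K ≤ 1 / 40 := by
    refine places_bad hD (by rw [hcard]; positivity) ?_
    rw [hcard, Real.log_mul (by positivity) (by positivity), Real.log_pow]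
    push_cast
    exact hK
  obtain ⟨l, hprog, hlen, f, hf, hdec⟩ := rc_fault (I := Game N q)
    (X := Con N q) (inputs N q) encU (fun x => by
      left
      refine ⟨x, ?_⟩
      funext I
      unfold Pool.Agent.H560R2.bit
      by_cases h3 : x ∈ I
      · rw [if_pos (encU_true.mpr h3), if_pos h3]
      · rw [if_neg (fun h4 => h3 (encU_true.mp h4)), if_neg h3])
    (fun c => Or.inr ⟨c, rfl⟩) (NoI m δ) (YesI m ε) hK0 hD C hT hbad
    (fun I hI τ => by
      refine h1 _ ⟨usmp_host I τ, ?_, ?_⟩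
      · have e2 := hostU_count' I τ
        rw [← hI.1, ← e2]
      · intro A B
        have e1 := hostU_count I τ (fun e => Sat A B e)
        convert hI.2 A B using 2)
    (fun I hI τ => by
      refine h2 _ ⟨usmp_host I τ, ?_, ?_⟩
      · have e2 := hostU_count' I τ
        rw [e2]
        exact hI.1
      · obtain ⟨A, B, hAB⟩ := hI.2
        refine ⟨A, B, ?_⟩
        have e1 := hostU_count I τ (fun e => ¬ Sat A B e)
        convert hAB using 2
        convert e1)
  have : Nonempty (R × (Con N q → Fin K)) :=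
    ⟨(Classical.arbitrary R, fun _ => 0)⟩
  obtain ⟨ω, hω⟩ := H ε hε _ l (fun ω => prog_conv (hprog ω))
    ⟨f, fun _ => 1, hf, fun I hI => by
      have h3 := (hdec I).1 hI
      have h4 : 2 * Fintype.card (R × (Con N q → Fin K)) ≤
          3 * (univ.filter fun ω => 1 ≤ f ω I).card := by omega
      convert h4, fun I hI => by
      have h3 := (hdec I).2 hI
      have h4 : 2 * Fintype.card (R × (Con N q → Fin K)) ≤
          3 * (univ.filter fun ω => f ω I < 1).card := by omega
      convert h4⟩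
  refine hω.trans ?_
  have h3 : (l ω).length ≤ 3 * s + 2 := (hlen ω).trans (by have := hs ω.1; omega)
  exact_mod_cast h3

end Pool.Agent.N625.UF
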